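import Mathlib

namespace Pool.Agent.Results.MP_9a3d30_co.Exp

open Finset

/-- Property `B(s)`: some set of vertices meets every edge in at least one and fewer than `s`
points. -/
def PropB (s : ℕ) (F : Finset (Finset ℕ)) : Prop :=
  ∃ S : Finset ℕ, S ⊆ F.biUnion id ∧ ∀ E ∈ F, 0 < (E ∩ S).card ∧ (E ∩ S).card < s

/-- `m(n,s)`: the least number of edges of a family of `n`-sets without property `B(s)`. -/
noncomputable def m (n s : ℕ) : ℕ :=
  sInf {k | ∃ F : Finset (Finset ℕ), (∀ E ∈ F, E.card = n) ∧ ¬ PropB s F ∧ F.card = k}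

lemma w_sup (V T : Finset ℕ) (hT : T ⊆ V) (p : ℝ) :
    ∑ S ∈ V.powerset, (if T ⊆ S then p ^ S.card * (1 - p) ^ (V \ S).card else 0) = p ^ T.card := by
  have h := Finset.prod_add (fun _ : ℕ => p) (fun x => if x ∈ T then 0 else 1 - p) V
  have e1 : ∏ x ∈ V, (p + if x ∈ T then 0 else 1 - p) = p ^ T.card := by
    have : ∀ x ∈ V, (p + if x ∈ T then 0 else 1 - p) = if x ∈ T then p else 1 := by
      intro x _
      by_cases hx : x ∈ T <;> simp [hx]
    rw [Finset.prod_congr rfl this, Finset.prod_ite_mem, Finset.inter_eq_right.2 hT,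
      Finset.prod_const]
  rw [← e1, h]
  refine Finset.sum_congr rfl (fun S hS => ?_)
  rw [Finset.prod_const]
  by_cases hTS : T ⊆ S
  · rw [if_pos hTS, Finset.prod_congr rfl (fun x hx => if_neg (fun h =>
      (Finset.mem_sdiff.1 hx).2 (hTS h))), Finset.prod_const]
  · obtain ⟨x, hx, hxS⟩ := Finset.not_subset.1 hTS
    rw [if_neg hTS, Finset.prod_eq_zero (f := fun i => if i ∈ T then (0 : ℝ) else 1 - p)
      (Finset.mem_sdiff.2 ⟨hT hx, hxS⟩) (if_pos hx), mul_zero]

lemma w_dis (V T : Finset ℕ) (hT : T ⊆ V) (p : ℝ) :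
    ∑ S ∈ V.powerset, (if T ∩ S = ∅ then p ^ S.card * (1 - p) ^ (V \ S).card else 0) =
      (1 - p) ^ T.card := by
  have h := Finset.prod_add (fun x : ℕ => if x ∈ T then 0 else p) (fun _ => 1 - p) V
  have e1 : ∏ x ∈ V, ((if x ∈ T then 0 else p) + (1 - p)) = (1 - p) ^ T.card := by
    have : ∀ x ∈ V, ((if x ∈ T then 0 else p) + (1 - p)) = if x ∈ T then 1 - p else 1 := by
      intro x _
      by_cases hx : x ∈ T <;> simp [hx]
    rw [Finset.prod_congr rfl this, Finset.prod_ite_mem, Finset.inter_eq_right.2 hT,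
      Finset.prod_const]
  rw [← e1, h]
  refine Finset.sum_congr rfl (fun S hS => ?_)
  rw [Finset.prod_const]
  by_cases hTS : T ∩ S = ∅
  · rw [if_pos hTS, Finset.prod_congr rfl (fun x hx => if_neg (fun h =>
      Finset.notMem_empty x (hTS ▸ Finset.mem_inter.2 ⟨h, hx⟩))), Finset.prod_const]
  · obtain ⟨x, hx⟩ := Finset.nonempty_iff_ne_empty.2 hTS
    rw [Finset.mem_inter] at hx
    rw [if_neg hTS, Finset.prod_eq_zero (f := fun i => if i ∈ T then (0 : ℝ) else p)
      hx.2 (if_pos hx.1), zero_mul]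

lemma first_moment {n s : ℕ} (F : Finset (Finset ℕ)) (hF : ∀ E ∈ F, E.card = n)
    (hB : ¬ PropB s F) (p : ℝ) (h0 : 0 ≤ p) (h1 : p ≤ 1) :
    1 ≤ F.card * ((1 - p) ^ n + n.choose s * p ^ s) := by
  obtain ⟨V, hV⟩ : ∃ V, V = F.biUnion id := ⟨_, rfl⟩
  have hEV : ∀ E ∈ F, E ⊆ V := fun E hE => hV ▸ Finset.subset_biUnion_of_mem id hE
  obtain ⟨w, hw⟩ : ∃ w : Finset ℕ → ℝ, ∀ S, w S = p ^ S.card * (1 - p) ^ (V \ S).card :=
    ⟨_, fun _ => rfl⟩
  have hw0 : ∀ S, 0 ≤ w S := by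
    intro S
    have : 0 ≤ 1 - p := by linarith
    rw [hw]; positivity
  have hi : ∀ (c : Prop) [Decidable c] (S : Finset ℕ), 0 ≤ (if c then w S else 0) := by
    intro c _ S
    split_ifs
    · exact hw0 S
    · exact le_rfl
  have t1 := w_sup V ∅ (Finset.empty_subset _) p
  simp only [Finset.empty_subset, if_true, Finset.card_empty, pow_zero, ← hw] at t1
  have key : ∀ S ∈ V.powerset, w S ≤ ∑ E ∈ F, ((if E ∩ S = ∅ then w S else 0) +
      ∑ T ∈ Finset.powersetCard s E, if T ⊆ S then w S else 0) := by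
    intro S hS
    have : ∃ E ∈ F, ¬ (0 < (E ∩ S).card ∧ (E ∩ S).card < s) := by
      by_contra h
      push Not at h
      exact hB ⟨S, hV ▸ Finset.mem_powerset.1 hS, fun E hE => by
        have := h E hE
        exact this⟩
    obtain ⟨E, hE, hbad⟩ := this
    refine le_trans ?_ (Finset.single_le_sum (f := fun E => ((if E ∩ S = ∅ then w S else 0) +
      ∑ T ∈ Finset.powersetCard s E, if T ⊆ S then w S else 0))
      (fun E _ => add_nonneg (hi _ S) (Finset.sum_nonneg (fun T _ => hi _ S))) hE)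
    by_cases h : E ∩ S = ∅
    · rw [if_pos h]
      exact le_add_of_nonneg_right (Finset.sum_nonneg (fun T _ => hi _ S))
    · have h2 : 0 < (E ∩ S).card := Finset.card_pos.2 (Finset.nonempty_iff_ne_empty.2 h)
      obtain ⟨T, hT1, hT2⟩ := Finset.exists_subset_card_eq (s := E ∩ S) (n := s) (by omega)
      rw [if_neg h, zero_add]
      refine le_trans ?_ (Finset.single_le_sum (f := fun T => if T ⊆ S then w S else 0)
        (fun T _ => hi _ S) (Finset.mem_powersetCard.2
          ⟨hT1.trans Finset.inter_subset_left, hT2⟩))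
      simp only [if_pos (hT1.trans Finset.inter_subset_right)]
      exact le_rfl
  have h2 := Finset.sum_le_sum key
  rw [t1, Finset.sum_comm] at h2
  have h3 : ∀ E ∈ F, ∑ S ∈ V.powerset, ((if E ∩ S = ∅ then w S else 0) +
      ∑ T ∈ Finset.powersetCard s E, if T ⊆ S then w S else 0) =
      (1 - p) ^ n + n.choose s * p ^ s := by
    intro E hE
    rw [Finset.sum_add_distrib, Finset.sum_comm]
    simp only [hw]
    rw [w_dis V E (hEV E hE), hF E hE]
    have : ∀ T ∈ Finset.powersetCard s E, ∑ S ∈ V.powerset,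
        (if T ⊆ S then p ^ S.card * (1 - p) ^ (V \ S).card else 0) = p ^ s := by
      intro T hT
      rw [Finset.mem_powersetCard] at hT
      rw [w_sup V T (hT.1.trans (hEV E hE)), hT.2]
    rw [Finset.sum_congr rfl this, Finset.sum_const, Finset.card_powersetCard, hF E hE,
      nsmul_eq_mul]
  rw [Finset.sum_congr rfl h3, Finset.sum_const, nsmul_eq_mul] at h2
  exact h2

lemma lower {n s : ℕ} (hs : 1 ≤ s) (hn : s ≤ n) (F : Finset (Finset ℕ))
    (hF : ∀ E ∈ F, E.card = n) (hB : ¬ PropB s F) :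
    Real.exp ((s : ℝ) / 4) / 2 ≤ F.card := by
  have hn0 : (0 : ℝ) < n := by exact_mod_cast (by omega : 0 < n)
  have hsn : (s : ℝ) ≤ n := by exact_mod_cast hn
  have hp1 : (s : ℝ) / (4 * n) ≤ 1 := by
    rw [div_le_one (by positivity)]; linarith
  have h := first_moment F hF hB ((s : ℝ) / (4 * n)) (by positivity) hp1
  have a1 : (1 - (s : ℝ) / (4 * n)) ^ n ≤ Real.exp (-((s : ℝ) / 4)) := by
    have h1 : 1 - (s : ℝ) / (4 * n) ≤ Real.exp (-((s : ℝ) / (4 * n))) := by
      have := Real.add_one_le_exp (-((s : ℝ) / (4 * n)))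
      linarith
    refine (pow_le_pow_left₀ (by linarith) h1 n).trans (le_of_eq ?_)
    rw [← Real.exp_nat_mul]
    congr 1
    field_simp
  have a2 : (n.choose s : ℝ) * ((s : ℝ) / (4 * n)) ^ s ≤ Real.exp (-((s : ℝ) / 4)) := by
    have b1 : (n.choose s : ℝ) ≤ (n : ℝ) ^ s / s.factorial := Nat.choose_le_pow_div s n
    have b2 : (s : ℝ) ^ s / s.factorial ≤ Real.exp s :=
      Real.pow_div_factorial_le_exp _ (by positivity) s
    have b3 : Real.exp 1 / 4 ≤ Real.exp (-(1 / 4)) := by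
      have c1 := Real.exp_one_lt_d9
      have c2 := Real.add_one_le_exp (-(1 / 4) : ℝ)
      linarith
    calc (n.choose s : ℝ) * ((s : ℝ) / (4 * n)) ^ s
        ≤ (n : ℝ) ^ s / s.factorial * ((s : ℝ) / (4 * n)) ^ s :=
          mul_le_mul_of_nonneg_right b1 (by positivity)
      _ = (s : ℝ) ^ s / s.factorial / 4 ^ s := by
          rw [div_pow, mul_pow]; field_simp
      _ ≤ Real.exp s / 4 ^ s := div_le_div_of_nonneg_right b2 (by positivity)
      _ = (Real.exp 1 / 4) ^ s := by rw [div_pow, ← Real.exp_nat_mul, mul_one]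
      _ ≤ (Real.exp (-(1 / 4))) ^ s := pow_le_pow_left₀ (by positivity) b3 s
      _ = Real.exp (-((s : ℝ) / 4)) := by
          rw [← Real.exp_nat_mul]; congr 1; ring
  have h2 : 1 ≤ (F.card : ℝ) * (2 * Real.exp (-((s : ℝ) / 4))) :=
    h.trans (mul_le_mul_of_nonneg_left (by linarith) (by positivity))
  have h3 : Real.exp ((s : ℝ) / 4) * Real.exp (-((s : ℝ) / 4)) = 1 := by
    rw [← Real.exp_add]; simp
  have h4 := mul_le_mul_of_nonneg_left h2 (Real.exp_pos ((s : ℝ) / 4)).le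
  rw [div_le_iff₀ (by norm_num)]
  calc Real.exp ((s : ℝ) / 4) = Real.exp ((s : ℝ) / 4) * 1 := (mul_one _).symm
    _ ≤ _ := h4
    _ = (F.card : ℝ) * 2 * (Real.exp ((s : ℝ) / 4) * Real.exp (-((s : ℝ) / 4))) := by ring
    _ = _ := by rw [h3, mul_one]

lemma construct (s t r : ℕ) (hs : 1 ≤ s) (hr : s ≤ r) :
    ∃ F : Finset (Finset ℕ), (∀ E ∈ F, E.card = s * t + r) ∧ ¬ PropB s F ∧
      F.card ≤ (2 * s - 1).choose s * (r + s - 1).choose r := by
  classical
  obtain ⟨e⟩ : Nonempty ((Fin (2 * s - 1) × Fin t) ⊕ Fin (r + s - 1) ↪ ℕ) :=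
    ⟨(Fintype.equivFin _).toEmbedding.trans Fin.valEmbedding⟩
  obtain ⟨ed, hed⟩ : ∃ ed : Finset (Fin (2 * s - 1)) × Finset (Fin (r + s - 1)) → Finset ℕ,
      ∀ X Y, ed (X, Y) = ((X ×ˢ (Finset.univ : Finset (Fin t))).disjSum Y).map e :=
    ⟨fun q => ((q.1 ×ˢ (Finset.univ : Finset (Fin t))).disjSum q.2).map e, fun _ _ => rfl⟩
  refine ⟨((Finset.powersetCard s Finset.univ) ×ˢ (Finset.powersetCard r Finset.univ)).image ed,
    ?_, ?_, ?_⟩
  · intro E hE
    obtain ⟨⟨X, Y⟩, hq, rfl⟩ := Finset.mem_image.1 hE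
    rw [Finset.mem_product, Finset.mem_powersetCard, Finset.mem_powersetCard] at hq
    rw [hed, Finset.card_map, Finset.card_disjSum, Finset.card_product, hq.1.2, hq.2.2]
    simp
  · rintro ⟨S, -, hS⟩
    have hS' : ∀ X Y, X.card = s → Y.card = r →
        0 < (ed (X, Y) ∩ S).card ∧ (ed (X, Y) ∩ S).card < s := by
      intro X Y hX hY
      refine hS _ (Finset.mem_image_of_mem ed ?_)
      rw [Finset.mem_product, Finset.mem_powersetCard, Finset.mem_powersetCard]
      exact ⟨⟨Finset.subset_univ _, hX⟩, ⟨Finset.subset_univ _, hY⟩⟩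
    obtain ⟨X0, -, hX0⟩ := Finset.exists_subset_card_eq
      (s := (Finset.univ : Finset (Fin (2 * s - 1)))) (n := s) (by simp; omega)
    obtain ⟨Y0, -, hY0⟩ := Finset.exists_subset_card_eq
      (s := (Finset.univ : Finset (Fin (r + s - 1)))) (n := r) (by simp; omega)
    obtain ⟨S1, hS1⟩ : ∃ S1 : Finset (Fin (2 * s - 1)), ∀ x, x ∈ S1 ↔
        ∃ j, e (Sum.inl (x, j)) ∈ S :=
      ⟨Finset.univ.filter (fun x => ∃ j, e (Sum.inl (x, j)) ∈ S), fun x => by simp⟩
    obtain ⟨S2, hS2⟩ : ∃ S2 : Finset (Fin (r + s - 1)), ∀ y, y ∈ S2 ↔ e (Sum.inr y) ∈ S :=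
      ⟨Finset.univ.filter (fun y => e (Sum.inr y) ∈ S), fun x => by simp⟩
    have c1 : S1.card < s := by
      by_contra h
      obtain ⟨X, hX1, hX2⟩ := Finset.exists_subset_card_eq (not_lt.1 h)
      have hj : ∀ x : X, ∃ j, e (Sum.inl (x.1, j)) ∈ S := fun x => (hS1 x.1).1 (hX1 x.2)
      choose j hj using hj
      have h1 : (Finset.univ : Finset X).card ≤ (ed (X, Y0) ∩ S).card := by
        refine Finset.card_le_card_of_injOn (fun x => e (Sum.inl (x.1, j x))) (fun x _ => ?_)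
          (fun x _ y _ hxy => ?_)
        · refine Finset.mem_coe.2 (Finset.mem_inter.2 ⟨?_, hj x⟩)
          rw [hed, Finset.mem_map']
          simp
        · have := e.injective hxy
          simp only [Sum.inl.injEq, Prod.mk.injEq] at this
          exact Subtype.ext this.1
      have h2 := (hS' X Y0 hX2 hY0).2
      simp only [Finset.card_univ, Fintype.card_coe] at h1
      omega
    have c2 : S2.card < s := by
      by_contra h
      obtain ⟨T, hT1, hT2⟩ := Finset.exists_subset_card_eq (not_lt.1 h)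
      obtain ⟨Y, hY1, -, hY2⟩ := Finset.exists_subsuperset_card_eq (Finset.subset_univ T)
        (n := r) (by omega) (by simp; omega)
      have h1 : T.card ≤ (ed (X0, Y) ∩ S).card := by
        refine Finset.card_le_card_of_injOn (fun y => e (Sum.inr y)) (fun y hy => ?_)
          (fun x _ y _ hxy => ?_)
        · refine Finset.mem_coe.2 (Finset.mem_inter.2 ⟨?_, (hS2 y).1 (hT1 hy)⟩)
          rw [hed, Finset.mem_map']
          simpa using hY1 hy
        · simpa using e.injective hxy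
      have h2 := (hS' X0 Y hX0 hY2).2
      omega
    obtain ⟨X, hX1, hX2⟩ := Finset.exists_subset_card_eq (s := S1ᶜ) (n := s)
      (by rw [Finset.card_compl, Fintype.card_fin]; omega)
    obtain ⟨Y, hY1, hY2⟩ := Finset.exists_subset_card_eq (s := S2ᶜ) (n := r)
      (by rw [Finset.card_compl, Fintype.card_fin]; omega)
    obtain ⟨z, hz⟩ := Finset.card_pos.1 (hS' X Y hX2 hY2).1
    rw [Finset.mem_inter, hed, Finset.mem_map] at hz
    obtain ⟨⟨u, hu, rfl⟩, hz⟩ := hz
    rcases u with ⟨x, j⟩ | y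
    · have hx : x ∈ X := by simpa using hu
      exact Finset.mem_compl.1 (hX1 hx) ((hS1 x).2 ⟨j, hz⟩)
    · have hy : y ∈ Y := by simpa using hu
      exact Finset.mem_compl.1 (hY1 hy) ((hS2 y).2 hz)
  · refine Finset.card_image_le.trans (le_of_eq ?_)
    simp

theorem result (n s : ℕ) (hs : 2 ≤ s) (hn : s ≤ n) :
    (∃ F : Finset (Finset ℕ), (∀ E ∈ F, E.card = n) ∧ ¬ PropB s F) ∧
    Real.exp ((s : ℝ) / 4) / 2 ≤ (m n s : ℝ) ∧ m n s ≤ 32 ^ s := by
  obtain ⟨F0, h1, h2, h3⟩ := construct s ((n - s) / s) (s + (n - s) % s) (by omega) (by omega)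
  have e : s * ((n - s) / s) + (s + (n - s) % s) = n := by
    have := Nat.div_add_mod (n - s) s
    omega
  rw [e] at h1
  have hmod : (n - s) % s < s := Nat.mod_lt _ (by omega)
  refine ⟨⟨F0, h1, h2⟩, ?_, ?_⟩
  · obtain ⟨F, g1, g2, g3⟩ : ∃ F : Finset (Finset ℕ), (∀ E ∈ F, E.card = n) ∧ ¬ PropB s F ∧
        F.card = m n s :=
      Nat.sInf_mem (s := {k | ∃ F : Finset (Finset ℕ), (∀ E ∈ F, E.card = n) ∧ ¬ PropB s F ∧
        F.card = k}) ⟨_, F0, h1, h2, rfl⟩
    rw [← g3]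
    exact lower (by omega) hn F g1 g2
  · have g : m n s ≤ F0.card := Nat.sInf_le ⟨F0, h1, h2, rfl⟩
    refine g.trans (h3.trans ?_)
    have a1 := (Nat.choose_le_two_pow (2 * s - 1) s).trans
      (Nat.pow_le_pow_right (by norm_num) (by omega : 2 * s - 1 ≤ 2 * s))
    have a2 := (Nat.choose_le_two_pow (s + (n - s) % s + s - 1) (s + (n - s) % s)).trans
      (Nat.pow_le_pow_right (by norm_num) (by omega : s + (n - s) % s + s - 1 ≤ 3 * s))
    calc _ ≤ 2 ^ (2 * s) * 2 ^ (3 * s) := Nat.mul_le_mul a1 a2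
      _ = 32 ^ s := by rw [pow_mul, pow_mul, ← mul_pow]; norm_num

end Pool.Agent.Results.MP_9a3d30_co.Exp
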